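import Pool.Agent.helper22.DL.SpecE2

namespace Pool.Agent.DL

open Matrix Complex MeasureTheory Set Filter Topology
open scoped ComplexOrder Manifold ContDiff ComplexConjugate

noncomputable section

theorem EAB (hEMX : EMX_stmt) (hEGS : EGS_stmt) (hEPT : EPT_stmt) (hMX : MX_stmt)
    (hLA : LA_stmt) : EAB_stmt := by
  intro κ hκ
  obtain ⟨c, hc, hpt⟩ := hEPT κ hκ
  obtain ⟨_, hScont, hS1, hS18, hSinv⟩ := hEGS
  refine ⟨-Real.log c + 1 / 2 * Real.log 18, ?_⟩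
  intro D L b hD hDκ hs hP j z hz
  have hSpos : ∀ z, 0 < Sg z := fun z => lt_of_lt_of_le one_pos (hS1 z)
  let F : Bool → ℂ → ℝ := fun j z => L j z + 1 / 2 * Real.log (Sg z)
  have hF : ∀ j, Continuous (F j) := fun j =>
    (hP.cL j).add (continuous_const.mul (hScont.log fun z => (hSpos z).ne'))
  have hFinv : ∀ j z, z ≠ 0 → F j z = F (!j) z⁻¹ := by
    intro j z hz
    simp only [F]
    rw [hP.gL j z hz, hSinv z hz, Real.log_mul (by positivity) (hSpos _).ne', Real.log_pow]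
    push_cast
    ring
  obtain ⟨j₀, z₀, hz₀, hmax1, hmax2⟩ := hEMX F hF hFinv
  obtain ⟨ψ, om, ρ, hρ, hψ0, hψ, hom, _, hSC, hSlap, hSY, _⟩ := hpt z₀ hz₀
  have hsy := hSY D L b hDκ hP j₀
  have h0 : (0 : ℂ) ∈ Metric.ball (0 : ℂ) ρ := Metric.mem_ball_self hρ
  have hLC : ContDiffAt ℝ 2 (fun y => L j₀ (ψ y)) 0 :=
    hsy.sL.contDiffAt (Metric.ball_mem_nhds _ hρ)
  have hlapL := hsy.e1 0 h0
  have hmaxat : IsLocalMax (fun y => 1 * L j₀ (ψ y) + 1 / 2 * Real.log (Sg (ψ y))) 0 := by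
    refine Filter.Eventually.of_forall fun y => ?_
    have := hmax1 (ψ y)
    simp only [F] at this
    simp only [one_mul]
    rw [hψ0]
    exact this
  have hle := hMX (fun y => 1 * L j₀ (ψ y) + 1 / 2 * Real.log (Sg (ψ y))) 0
    ((contDiffAt_const.mul hLC).add (contDiffAt_const.mul hSC)) hmaxat
  rw [hLA.1 (fun y => L j₀ (ψ y)) (fun y => Real.log (Sg (ψ y))) 0 1 (1 / 2) hLC hSC, one_mul,
    hlapL] at hle
  have hs0 : D.s j₀ (ψ 0) = 0 := hs _ _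
  simp only [hs0, add_zero] at hle
  have hRR : -Real.exp (-(L j₀ (ψ 0))) ≤
      RR (D.p j₀ (ψ 0)) (D.r j₀ (ψ 0)) (L j₀ (ψ 0)) (b j₀ (ψ 0)) := by
    unfold RR
    have h1 : 0 ≤ Real.exp (L j₀ (ψ 0)) * ‖xx (D.p j₀ (ψ 0)) (b j₀ (ψ 0))‖ ^ 2 := by positivity
    have h2 : 0 ≤ Real.exp (2 * L j₀ (ψ 0)) *
        ‖yy (D.p j₀ (ψ 0)) (D.r j₀ (ψ 0)) (b j₀ (ψ 0))‖ ^ 2 := by positivity
    linarith
  have hom0 := hom 0 h0
  have h3 : 0 ≤ Real.exp (L j₀ (ψ 0)) * ‖dzb (fun y => b j₀ (ψ y)) 0‖ ^ 2 := by positivity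
  have h4 : om 0 * (-Real.exp (-(L j₀ (ψ 0)))) ≤
      om 0 * RR (D.p j₀ (ψ 0)) (D.r j₀ (ψ 0)) (L j₀ (ψ 0)) (b j₀ (ψ 0)) :=
    mul_le_mul_of_nonneg_left hRR hom0.le
  have h5 : c ≤ Real.exp (-(L j₀ (ψ 0))) := by
    have h6 : om 0 * (c - Real.exp (-(L j₀ (ψ 0)))) ≤ 0 := by nlinarith
    by_contra hcon
    push Not at hcon
    have h7 : 0 < om 0 * (c - Real.exp (-(L j₀ (ψ 0)))) := mul_pos hom0 (by linarith)
    linarith
  have h6 : L j₀ z₀ ≤ -Real.log c := by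
    rw [hψ0] at h5
    have := Real.log_le_log hc h5
    rw [Real.log_exp] at this
    linarith
  have h7 : Real.log (Sg z₀) ≤ Real.log 18 := Real.log_le_log (hSpos _) (hS18 z₀ hz₀)
  have h8 : 0 ≤ Real.log (Sg z) := Real.log_nonneg (hS1 z)
  have h9 : F j z ≤ F j₀ z₀ := by
    by_cases hj : j = j₀
    · rw [hj]; exact hmax1 z
    · have : j = !j₀ := by
        cases j <;> cases j₀ <;> simp_all
      rw [this]; exact hmax2 z
  simp only [F] at h9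
  linarith

end

end Pool.Agent.DL
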