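import Pool.Agent.helper22.DL.SpecE2

namespace Pool.Agent.DL

open Matrix Complex MeasureTheory Set Filter Topology
open scoped ComplexOrder Manifold ContDiff ComplexConjugate

noncomputable section

theorem EPT_open : IsOpen Ns := by
  have : Ns = (fun z : ℂ => z ^ 8) ⁻¹' {1}ᶜ := rfl
  rw [this]
  exact isOpen_compl_singleton.preimage (continuous_id.pow 8)

theorem EPT_lap (u : ℂ → ℝ) (z₀ : ℂ) : lap (fun y => u (z₀ + y)) 0 = lap u z₀ := by
  unfold lap
  simp only [zero_add]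

theorem EPT (hEGS : EGS_stmt) (hEPS : EPS_stmt) (hECH : ECH_stmt) : EPT_stmt := by
  intro κ hκ
  have hκ0 : 0 < κ := by linarith
  obtain ⟨⟨c, hc, hoff, hroot⟩, _⟩ := hEGS
  refine ⟨c / κ, by positivity, ?_⟩
  intro z₀ hz₀
  by_cases hr : z₀ ^ 8 = 1
  · -- a root
    obtain ⟨hψ0, hψ, hψ2, hW⟩ := hEPS z₀ hr
    obtain ⟨_, hWr0, hWr⟩ := hW κ hκ0
    obtain ⟨_, hWr10, _⟩ := hW 1 one_pos
    obtain ⟨hCD, hlap⟩ := hroot z₀ hr
    have h0 : (0 : ℂ) ∈ Metric.ball (0 : ℂ) 1 := Metric.mem_ball_self one_pos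
    refine ⟨psi z₀, Wr κ, 1, one_pos, hψ0, hψ, fun y hy => (hWr y hy).1, ?_, hCD, ?_, ?_, ?_⟩
    · have := (hWr 0 h0).2.1
      rw [hψ0] at this
      exact this
    · rw [hWr0]
      rw [hWr10] at hlap
      have e : c / κ * (κ / 4) = c * (1 / 4) := by field_simp
      rw [e]
      exact hlap
    · intro D L b hD hP j
      have := hP.ro j z₀ hr
      rw [hD] at this
      exact this
    · intro D L b L' b' hD hP hL j
      have := hL.ro j z₀ hr
      rw [hD] at this
      exact this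
  · -- off the roots
    obtain ⟨hCD, hlap⟩ := hoff z₀ hz₀ hr
    obtain ⟨ρ, hρ, hball⟩ := Metric.isOpen_iff.mp EPT_open z₀ hr
    have hnorm : ∀ z : ℂ, z ∈ Ns → 0 < ‖1 - z ^ 8‖ := by
      intro z hz
      rw [norm_pos_iff, sub_ne_zero]
      exact fun h => hz h.symm
    have hmaps : MapsTo (fun y : ℂ => z₀ + y) (Metric.ball 0 ρ) Ns := by
      intro y hy
      apply hball
      rw [Metric.mem_ball, dist_eq_norm, add_sub_cancel_left]
      simpa using hy
    have hdiff : ∀ y : ℂ, HasDerivAt (fun y : ℂ => z₀ + y) 1 y := fun y =>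
      (hasDerivAt_id y).const_add z₀
    have hψd : DifferentiableOn ℂ (fun y : ℂ => z₀ + y) (Metric.ball 0 ρ) := fun y _ =>
      (hdiff y).differentiableAt.differentiableWithinAt
    have hW : ∀ κ' : ℝ, ∀ y ∈ Metric.ball (0 : ℂ) ρ,
        Wt κ' (z₀ + y) = Wt κ' ((fun y : ℂ => z₀ + y) y) *
          ‖deriv (fun y : ℂ => z₀ + y) y‖ ^ 2 := by
      intro κ' y _
      rw [(hdiff y).deriv]
      simp
    refine ⟨fun y => z₀ + y, fun y => Wt κ (z₀ + y), ρ, hρ, by simp, hψd, ?_, ?_, ?_, ?_, ?_, ?_⟩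
    · intro y hy
      unfold Wt
      exact div_pos hκ0 (hnorm _ (hmaps hy))
    · rw [(hdiff 0).deriv]
      simp only [Wt, add_zero]
      have := (hnorm z₀ hr).ne'
      rw [norm_one, one_pow, mul_one]
      field_simp
    · have h1 : ContDiffAt ℝ 2 (fun w => Real.log (Sg w)) (z₀ + 0) := by
        rw [add_zero]; exact hCD
      exact h1.comp (0 : ℂ) (contDiffAt_const.add contDiffAt_id)
    · have h1 : lap (fun y => Real.log (Sg (z₀ + y))) 0 = lap (fun w => Real.log (Sg w)) z₀ :=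
        EPT_lap (fun w => Real.log (Sg w)) z₀
      rw [h1]
      have e : c / κ * Wt κ (z₀ + 0) = c * Wt 1 z₀ := by
        rw [add_zero]
        unfold Wt
        field_simp
      rw [e]
      exact hlap
    · intro D L b hD hP j
      have h1 := hP.sy j
      rw [hD] at h1
      exact (hECH (Metric.ball 0 ρ) Ns (fun y => z₀ + y) (Wt κ) (fun y => Wt κ (z₀ + y))
        (D.p j) (D.r j) (D.s j) (L j) (b j) (L j) (b j) Metric.isOpen_ball EPT_open hψd hmaps
        (hW κ) h1).1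
    · intro D L b L' b' hD hP hL j
      have h1 := hP.sy j
      have h2 := hL.sy j
      rw [hD] at h1 h2
      exact (hECH (Metric.ball 0 ρ) Ns (fun y => z₀ + y) (Wt κ) (fun y => Wt κ (z₀ + y))
        (D.p j) (D.r j) (D.s j) (L j) (b j) (L' j) (b' j) Metric.isOpen_ball EPT_open hψd hmaps
        (hW κ) h1).2 h2

end

end Pool.Agent.DL
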