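import Pool.Agent.helper22.DL.SpecE1

namespace Pool.Agent.DL

open Matrix Complex MeasureTheory Set Filter Topology
open scoped ComplexOrder Manifold ContDiff ComplexConjugate

noncomputable section

theorem ERJ_half {d D : ℝ} (hd : 0 ≤ d) (hD : d ≤ D) :
    d ≤ D ^ (1 / 2 : ℝ) * d ^ (1 / 2 : ℝ) := by
  rw [← Real.sqrt_eq_rpow, ← Real.sqrt_eq_rpow]
  have h1 : √d * √d = d := Real.mul_self_sqrt hd
  have h2 : √d ≤ √D := Real.sqrt_le_sqrt hD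
  have h3 : 0 ≤ √d := Real.sqrt_nonneg d
  nlinarith

/-- Lipschitz functions on a ball are Hölder continuous. -/
theorem ERJ_lip {E F : Type} [NormedAddCommGroup E] [NormedAddCommGroup F] {f : E → F} {z₀ : E}
    {ρ : ℝ} {K : NNReal} (hf : LipschitzOnWith K f (Metric.ball z₀ ρ)) :
    ∀ z ∈ Metric.ball z₀ ρ, ∀ z' ∈ Metric.ball z₀ ρ,
      ‖f z - f z'‖ ≤ (K * (2 * ρ) ^ (1 / 2 : ℝ)) * ‖z - z'‖ ^ (1 / 2 : ℝ) := by
  intro z hz z' hz'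
  have h1 := hf.dist_le_mul z hz z' hz'
  rw [dist_eq_norm, dist_eq_norm] at h1
  have h2 : ‖z - z'‖ ≤ 2 * ρ := by
    rw [Metric.mem_ball] at hz hz'
    have h3 := dist_triangle_right z z' z₀
    rw [dist_eq_norm] at h3
    linarith
  have h4 := ERJ_half (norm_nonneg (z - z')) h2
  have h5 : (0 : ℝ) ≤ K := K.2
  calc ‖f z - f z'‖ ≤ K * ‖z - z'‖ := h1
    _ ≤ K * ((2 * ρ) ^ (1 / 2 : ℝ) * ‖z - z'‖ ^ (1 / 2 : ℝ)) := mul_le_mul_of_nonneg_left h4 h5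
    _ = _ := by ring

theorem ERJ_dzb_hol {h : ℂ → ℂ} {z : ℂ} (hh : DifferentiableAt ℂ h z) : dzb h z = 0 := by
  unfold dzb
  have h1 : fderiv ℝ h z = (fderiv ℂ h z).restrictScalars ℝ := hh.fderiv_restrictScalars ℝ
  rw [h1]
  have h2 : (fderiv ℂ h z) I = I * (fderiv ℂ h z) 1 := by
    have := (fderiv ℂ h z).map_smul I 1
    rw [smul_eq_mul, mul_one, smul_eq_mul] at this
    exact this
  rw [ContinuousLinearMap.coe_restrictScalars', h2, ← mul_assoc, I_mul_I]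
  ring

/-- one point -/
theorem ERJ_pt (hERB : ERB_stmt) (hERC : ERC_stmt) (hERD : ERD_stmt)
    (n : ℕ) (V : ℂ → Fin n → ℂ) (G : ℂ → (Fin n → ℂ) → Fin n → ℂ) (Ω : Set ℂ)
    (hG : ContDiffOn ℝ ∞ (fun x : ℂ × (Fin n → ℂ) => G x.1 x.2) (Ω ×ˢ univ))
    (z₀ : ℂ) (ρ : ℝ) (hρ : 0 < ρ) (hball : Metric.ball z₀ ρ ⊆ Ω) (M : ℝ)
    (hM : ∀ z ∈ Metric.ball z₀ ρ, ‖V z‖ ≤ M)
    (hrep : ∀ i, RepAt (fun z => V z i) (fun z => G z (V z) i) z₀ ρ) :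
    ContDiffAt ℝ 1 V z₀ ∧ ∀ i, dzb (fun w => V w i) z₀ = G z₀ (V z₀) i := by
  obtain ⟨ρ₁, hρ₁⟩ : ∃ ρ₁, ρ₁ = ρ / 2 := ⟨_, rfl⟩
  obtain ⟨ρ₂, hρ₂⟩ : ∃ ρ₂, ρ₂ = ρ₁ / 2 := ⟨_, rfl⟩
  have h1pos : 0 < ρ₁ := by rw [hρ₁]; linarith
  have h2pos : 0 < ρ₂ := by rw [hρ₂]; linarith
  have hcb1 : Metric.closedBall z₀ ρ₁ ⊆ Metric.ball z₀ ρ :=
    Metric.closedBall_subset_ball (by rw [hρ₁]; linarith)
  have hb1 : Metric.ball z₀ ρ₁ ⊆ Metric.ball z₀ ρ := Metric.ball_subset_closedBall.trans hcb1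
  have hcb2 : Metric.closedBall z₀ ρ₂ ⊆ Metric.ball z₀ ρ₁ :=
    Metric.closedBall_subset_ball (by rw [hρ₂]; linarith)
  have hb2 : Metric.ball z₀ ρ₂ ⊆ Metric.ball z₀ ρ₁ := Metric.ball_subset_closedBall.trans hcb2
  have hM0 : 0 ≤ M := (norm_nonneg _).trans (hM z₀ (Metric.mem_ball_self hρ))
  -- the compact convex set
  let Kc : Set (ℂ × (Fin n → ℂ)) := Metric.closedBall z₀ ρ₁ ×ˢ Metric.closedBall 0 M
  have hKc : IsCompact Kc := (isCompact_closedBall _ _).prod (isCompact_closedBall _ _)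
  have hKconv : Convex ℝ Kc := (convex_closedBall _ _).prod (convex_closedBall _ _)
  have hKsub : Kc ⊆ Ω ×ˢ univ := by
    rintro ⟨z, v⟩ ⟨hz, _⟩
    exact ⟨hball (hcb1 hz), mem_univ _⟩
  have hGK := hG.mono hKsub
  obtain ⟨M₁, hM₁⟩ := hKc.exists_bound_of_continuousOn hGK.continuousOn
  obtain ⟨L, hL⟩ := hGK.exists_lipschitzOnWith (by simp) hKconv hKc
  have hVK : ∀ z ∈ Metric.ball z₀ ρ₁, ((z, V z) : ℂ × (Fin n → ℂ)) ∈ Kc := by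
    intro z hz
    refine ⟨Metric.ball_subset_closedBall hz, ?_⟩
    rw [mem_closedBall_zero_iff]
    exact hM z (hb1 hz)
  have hφM : ∀ i, ∀ z ∈ Metric.ball z₀ ρ₁, ‖G z (V z) i‖ ≤ M₁ := by
    intro i z hz
    exact (norm_le_pi_norm (G z (V z)) i).trans (hM₁ _ (hVK z hz))
  -- representation on the ball `ρ₁`
  have hrep1 : ∀ i, RepAt (fun z => V z i) (fun z => G z (V z) i) z₀ ρ₁ := by
    intro i
    obtain ⟨hint, h, hh, hrepi⟩ := hrep i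
    exact hERB _ _ z₀ z₀ ρ ρ₁ M₁ h h1pos hb1 hint (hφM i) hh (fun z hz => hrepi z (hb1 hz))
  obtain ⟨C, hC⟩ := hERC ρ₁ M₁ h1pos
  -- Hölder continuity of V
  have hVi : ∀ i, ∃ C₂ : ℝ, 0 ≤ C₂ ∧ ∀ z ∈ Metric.ball z₀ ρ₂, ∀ z' ∈ Metric.ball z₀ ρ₂,
      ‖V z i - V z' i‖ ≤ C₂ * ‖z - z'‖ ^ (1 / 2 : ℝ) := by
    intro i
    obtain ⟨hint, h, hh, hrepi⟩ := hrep1 i
    obtain ⟨_, _, hH⟩ := hC _ z₀ hint.aestronglyMeasurable (hφM i)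
    have hhC : ContDiffOn ℝ 1 h (Metric.closedBall z₀ ρ₂) :=
      ((hh.contDiffOn Metric.isOpen_ball).restrict_scalars ℝ).mono hcb2
    obtain ⟨K, hK⟩ := hhC.exists_lipschitzOnWith one_ne_zero (convex_closedBall _ _)
      (isCompact_closedBall _ _)
    have hlip := ERJ_lip (hK.mono Metric.ball_subset_closedBall)
    refine ⟨|C| + K * (2 * ρ₂) ^ (1 / 2 : ℝ), by positivity, ?_⟩
    intro z hz z' hz'
    have e1 : V z i - V z' i = (TC (fun z => G z (V z) i) (Metric.ball z₀ ρ₁) z -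
        TC (fun z => G z (V z) i) (Metric.ball z₀ ρ₁) z') + (h z - h z') := by
      have a1 := hrepi z (hb2 hz)
      have a2 := hrepi z' (hb2 hz')
      simp only at a1 a2
      rw [a1, a2]
      ring
    rw [e1]
    have hx : 0 ≤ ‖z - z'‖ ^ (1 / 2 : ℝ) := Real.rpow_nonneg (norm_nonneg _) _
    calc _ ≤ ‖TC (fun z => G z (V z) i) (Metric.ball z₀ ρ₁) z -
          TC (fun z => G z (V z) i) (Metric.ball z₀ ρ₁) z'‖ + ‖h z - h z'‖ := norm_add_le _ _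
      _ ≤ C * ‖z - z'‖ ^ (1 / 2 : ℝ) + (K * (2 * ρ₂) ^ (1 / 2 : ℝ)) * ‖z - z'‖ ^ (1 / 2 : ℝ) :=
        add_le_add (hH z z') (hlip z hz z' hz')
      _ ≤ _ := by
        rw [add_mul]
        gcongr
        exact le_abs_self C
  choose C₂ hC₂0 hC₂ using hVi
  obtain ⟨C₃, hC₃0, hC₃⟩ : ∃ C₃ : ℝ, 0 ≤ C₃ ∧ ∀ z ∈ Metric.ball z₀ ρ₂,
      ∀ z' ∈ Metric.ball z₀ ρ₂, ‖V z - V z'‖ ≤ C₃ * ‖z - z'‖ ^ (1 / 2 : ℝ) := by
    refine ⟨∑ i, C₂ i, Finset.sum_nonneg fun i _ => hC₂0 i, ?_⟩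
    intro z hz z' hz'
    have hx : 0 ≤ ‖z - z'‖ ^ (1 / 2 : ℝ) := Real.rpow_nonneg (norm_nonneg _) _
    rw [pi_norm_le_iff_of_nonneg (mul_nonneg (Finset.sum_nonneg fun i _ => hC₂0 i) hx)]
    intro i
    refine (hC₂ i z hz z' hz').trans ?_
    gcongr
    exact Finset.single_le_sum (fun j _ => hC₂0 j) (Finset.mem_univ i)
  -- Hölder continuity of the density
  obtain ⟨C₄, hC₄⟩ : ∃ C₄ : ℝ, ∀ i, ∀ z ∈ Metric.ball z₀ ρ₂,
      ∀ z' ∈ Metric.ball z₀ ρ₂, ‖G z (V z) i - G z' (V z') i‖ ≤ C₄ * ‖z - z'‖ ^ (1 / 2 : ℝ) := by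
    refine ⟨L * ((2 * ρ₂) ^ (1 / 2 : ℝ) + C₃), ?_⟩
    intro i z hz z' hz'
    have hx : 0 ≤ ‖z - z'‖ ^ (1 / 2 : ℝ) := Real.rpow_nonneg (norm_nonneg _) _
    have h1 : ‖G z (V z) i - G z' (V z') i‖ ≤ ‖G z (V z) - G z' (V z')‖ :=
      norm_le_pi_norm (G z (V z) - G z' (V z')) i
    have h2 := hL.dist_le_mul (z, V z) (hVK z (hb2 hz)) (z', V z') (hVK z' (hb2 hz'))
    rw [dist_eq_norm, dist_eq_norm] at h2
    have h3 : ‖((z, V z) : ℂ × (Fin n → ℂ)) - (z', V z')‖ ≤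
        (2 * ρ₂) ^ (1 / 2 : ℝ) * ‖z - z'‖ ^ (1 / 2 : ℝ) + C₃ * ‖z - z'‖ ^ (1 / 2 : ℝ) := by
      rw [Prod.mk_sub_mk, Prod.norm_mk]
      have h4 : ‖z - z'‖ ≤ (2 * ρ₂) ^ (1 / 2 : ℝ) * ‖z - z'‖ ^ (1 / 2 : ℝ) := by
        apply ERJ_half (norm_nonneg _)
        rw [Metric.mem_ball] at hz hz'
        have h3 := dist_triangle_right z z' z₀
        rw [dist_eq_norm] at h3
        linarith
      have h5 := hC₃ z hz z' hz'
      have h6 : 0 ≤ C₃ * ‖z - z'‖ ^ (1 / 2 : ℝ) := mul_nonneg hC₃0 hx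
      have h7 : 0 ≤ (2 * ρ₂) ^ (1 / 2 : ℝ) * ‖z - z'‖ ^ (1 / 2 : ℝ) := by positivity
      refine max_le ?_ ?_
      · linarith
      · linarith
    calc _ ≤ ‖G z (V z) - G z' (V z')‖ := h1
      _ ≤ L * ‖((z, V z) : ℂ × (Fin n → ℂ)) - (z', V z')‖ := h2
      _ ≤ L * ((2 * ρ₂) ^ (1 / 2 : ℝ) * ‖z - z'‖ ^ (1 / 2 : ℝ) +
          C₃ * ‖z - z'‖ ^ (1 / 2 : ℝ)) := mul_le_mul_of_nonneg_left h3 L.2
      _ = _ := by ring
  -- C¹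
  have key : ∀ i, ContDiffAt ℝ 1 (fun w => V w i) z₀ ∧ dzb (fun w => V w i) z₀ = G z₀ (V z₀) i := by
    intro i
    obtain ⟨hint, h, hh, hrepi⟩ := hrep1 i
    obtain ⟨_, h', hh', hrepi'⟩ := hERB _ _ z₀ z₀ ρ₁ ρ₂ M₁ h h2pos hb2 hint
      (fun z hz => hφM i z (hb2 hz)) hh (fun z hz => hrepi z (hb2 hz))
    obtain ⟨hTC1, hTC2⟩ := hERD (fun z => G z (V z) i) z₀ ρ₂ (max M₁ C₄) (1 / 2) h2pos
      (by norm_num) (by norm_num) (fun z hz => (hφM i z (hb2 hz)).trans (le_max_left _ _))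
      (fun z hz z' hz' => (hC₄ i z hz z' hz').trans
        (mul_le_mul_of_nonneg_right (le_max_right _ _) (Real.rpow_nonneg (norm_nonneg _) _)))
    have hmem : Metric.ball z₀ ρ₂ ∈ 𝓝 z₀ := Metric.ball_mem_nhds z₀ h2pos
    have hself : z₀ ∈ Metric.ball z₀ ρ₂ := Metric.mem_ball_self h2pos
    have hev : (fun w => V w i) =ᶠ[𝓝 z₀]
        (TC (fun z => G z (V z) i) (Metric.ball z₀ ρ₂) + h') := by
      filter_upwards [hmem] with z hz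
      exact hrepi' z hz
    have hT : ContDiffAt ℝ 1 (TC (fun z => G z (V z) i) (Metric.ball z₀ ρ₂)) z₀ :=
      hTC1.contDiffAt hmem
    have hh'C : ContDiffAt ℝ 1 h' z₀ :=
      ((hh'.contDiffOn Metric.isOpen_ball).restrict_scalars ℝ).contDiffAt hmem
    refine ⟨(hT.add hh'C).congr_of_eventuallyEq hev, ?_⟩
    have e1 : dzb (fun w => V w i) z₀ =
        dzb (TC (fun z => G z (V z) i) (Metric.ball z₀ ρ₂)) z₀ + dzb h' z₀ := by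
      unfold dzb
      rw [hev.fderiv_eq, fderiv_add (hT.differentiableAt one_ne_zero)
        (hh'C.differentiableAt one_ne_zero)]
      simp only [ContinuousLinearMap.add_apply]
      ring
    rw [e1, hTC2 z₀ hself, ERJ_dzb_hol (hh'.differentiableAt hmem), add_zero]
  exact ⟨contDiffAt_pi.mpr fun i => (key i).1, fun i => (key i).2⟩

theorem ERJ (hERB : ERB_stmt) (hERC : ERC_stmt) (hERD : ERD_stmt) : ERJ_stmt := by
  intro n V G Ω _ hG hloc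
  constructor
  · intro z₀ hz₀
    obtain ⟨ρ, hρ, hball, _, ⟨M, hM⟩, hrep⟩ := hloc z₀ hz₀
    exact (ERJ_pt hERB hERC hERD n V G Ω hG z₀ ρ hρ hball M hM hrep).1.contDiffWithinAt
  · intro z₀ hz₀
    obtain ⟨ρ, hρ, hball, _, ⟨M, hM⟩, hrep⟩ := hloc z₀ hz₀
    exact (ERJ_pt hERB hERC hERD n V G Ω hG z₀ ρ hρ hball M hM hrep).2

end

end Pool.Agent.DL
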