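import Pool.Agent.helper22.DL.SpecE3

namespace Pool.Agent.DL

open Matrix Complex MeasureTheory Set Filter Topology
open scoped ComplexOrder Manifold ContDiff ComplexConjugate

noncomputable section

theorem ETD_glue (z w : ℂ) (hzw : z * w = 1) (L₀ L₁ : ℝ) (b₀ b₁ : ℂ)
    (hL : L₁ = L₀ + 4 * Real.log ‖z‖) (hb : b₀ = z ^ 2 * b₁) :
    H3 L₁ b₁ = (diagonal ![z ^ 2, 1, w ^ 2])ᴴ * H3 L₀ b₀ * diagonal ![z ^ 2, 1, w ^ 2] := by
  have hz : z ≠ 0 := by
    rintro rfl
    rw [zero_mul] at hzw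
    exact zero_ne_one hzw
  have hw : w = z⁻¹ := eq_inv_of_mul_eq_one_right hzw
  have hnz : 0 < ‖z‖ := norm_pos_iff.mpr hz
  have h1 : uu b₀ * diagonal ![z ^ 2, 1, w ^ 2] = diagonal ![z ^ 2, 1, w ^ 2] * uu b₁ := by
    have e1 : z ^ 2 * w ^ 2 = 1 := by rw [← mul_pow, hzw, one_pow]
    ext i j
    fin_cases i <;> fin_cases j <;>
      simp [uu, Matrix.mul_apply, Fin.sum_univ_three, diagonal_apply, hb]
    · linear_combination (z ^ 2 * b₁ ^ 2 / 2) * e1
    · linear_combination b₁ * e1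
  have h2 : (diagonal ![z ^ 2, 1, w ^ 2])ᴴ *
      diagonal ![(Real.exp L₀ : ℂ), 1, (Real.exp (-L₀) : ℂ)] * diagonal ![z ^ 2, 1, w ^ 2] =
      diagonal ![(Real.exp L₁ : ℂ), 1, (Real.exp (-L₁) : ℂ)] := by
    have hexp : Real.exp L₁ = Real.exp L₀ * ‖z‖ ^ 4 := by
      rw [hL, Real.exp_add]
      congr 1
      rw [mul_comm, Real.exp_mul, Real.exp_log hnz]
      exact_mod_cast Real.rpow_natCast ‖z‖ 4
    have hexp2 : Real.exp (-L₁) = Real.exp (-L₀) * ‖w‖ ^ 4 := by
      rw [Real.exp_neg, hexp, Real.exp_neg, hw, norm_inv, mul_inv, inv_pow]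
    have e1 : ∀ v : ℂ, conj (v ^ 2) * v ^ 2 = ((‖v‖ ^ 4 : ℝ) : ℂ) := by
      intro v
      have : conj (v ^ 2) * v ^ 2 = (conj v * v) ^ 2 := by rw [map_pow]; ring
      rw [this, conj_mul']
      push_cast
      ring
    rw [diagonal_conjTranspose, diagonal_mul_diagonal, diagonal_mul_diagonal]
    congr 1
    funext i
    fin_cases i
    · show conj (z ^ 2) * (Real.exp L₀ : ℂ) * z ^ 2 = (Real.exp L₁ : ℂ)
      rw [hexp, mul_right_comm, e1]
      push_cast
      ring
    · simp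
    · show conj (w ^ 2) * (Real.exp (-L₀) : ℂ) * w ^ 2 = (Real.exp (-L₁) : ℂ)
      rw [hexp2, mul_right_comm, e1]
      push_cast
      ring
  unfold H3
  calc (uu b₁)ᴴ * diagonal ![(Real.exp L₁ : ℂ), 1, (Real.exp (-L₁) : ℂ)] * uu b₁
      = (diagonal ![z ^ 2, 1, w ^ 2] * uu b₁)ᴴ *
          diagonal ![(Real.exp L₀ : ℂ), 1, (Real.exp (-L₀) : ℂ)] *
          (diagonal ![z ^ 2, 1, w ^ 2] * uu b₁) := by
        rw [← h2, conjTranspose_mul]
        simp only [Matrix.mul_assoc]
    _ = _ := by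
        rw [← h1, conjTranspose_mul]
        simp only [Matrix.mul_assoc]

/-- `LH` depends only on the values of `A` and `W` on the set. -/
theorem ETD_congr {n : ℕ} {Ω : Set ℂ} {A A' H : ℂ → Matrix (Fin n) (Fin n) ℂ} {W W' : ℂ → ℝ}
    (h : LH n Ω A W H) (hA : ∀ z ∈ Ω, A' z = A z) (hW : ∀ z ∈ Ω, W' z = W z) :
    LH n Ω A' W' H :=
  ⟨h.pos, h.smooth, fun z hz => by rw [hA z hz, hW z hz]; exact h.eq z hz⟩

/-- the metric -/
def ETD_H (L : Bool → ℂ → ℝ) (b : Bool → ℂ → ℂ) (i : Bool) (x : XT) :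
    Matrix (Fin 3) (Fin 3) ℂ := match i with
  | false => H3 (L false (fZ x)) (b false (fZ x))
  | true => H3 (L true (fN x)) (b true (fN x))

theorem ETD (hEHL : EHL_stmt) (hEPS : EPS_stmt) (hETC : ETC_stmt) (hETV : ETV_stmt)
    (hEX : EX_stmt) (hENA : ENA_stmt) : ETD_stmt := by
  intro cs ch hgood hhol hval a t ha ht hLb
  obtain ⟨L, b, hP⟩ := hLb
  have ha0 : 0 < a := by linarith
  obtain ⟨hDAv, _⟩ := hETV a t ha
  obtain ⟨hcov, _, _, _, _, _, _, hrat, hrat1, hq0, hq1, hq23⟩ := hEX XT (DX ch) hval a t ha0 ht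
  -- local equation on the sphere
  have hNs : ∀ j, LH 3 Ns (fun z => A3 ((DA a t).p j z) ((DA a t).r j z)) (Wt (a ^ 2))
      (fun z => H3 (L j z) (b j z)) := by
    intro j
    have hopen : IsOpen Ns := by
      have : Ns = (fun z : ℂ => z ^ 8) ⁻¹' {1}ᶜ := rfl
      rw [this]
      exact isOpen_compl_singleton.preimage (continuous_id.pow 8)
    exact hEHL Ns (Wt (a ^ 2)) _ _ _ _ hopen (hDAv.hp j).differentiableOn
      (hDAv.hr j).differentiableOn (hP.sy j)
  have hro : ∀ j d, d ^ 8 = 1 → LH 3 (Metric.ball 0 1)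
      (fun y => A3 ((DA a t).p j (psi d y)) ((DA a t).r j (psi d y))) (Wr (a ^ 2))
      (fun y => H3 (L j (psi d y)) (b j (psi d y))) := by
    intro j d hd
    obtain ⟨_, hψ, _, _⟩ := hEPS d hd
    refine hEHL (Metric.ball 0 1) (Wr (a ^ 2)) (fun y => (DA a t).p j (psi d y))
      (fun y => (DA a t).r j (psi d y)) _ _ Metric.isOpen_ball ?_ ?_ (hP.ro j d hd)
    · exact (hDAv.hp j).comp_differentiableOn hψ
    · exact (hDAv.hr j).comp_differentiableOn hψ
  refine ⟨ETD_H L b, ⟨?_, ?_⟩, ?_⟩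
  · -- glue
    intro i j x hx
    have hmul : ∀ x ∈ (DX ch).U0 ∩ (DX ch).U1, fZ x * fN x = 1 := hval.mul
    have hnn : ∀ x ∈ (DX ch).U0 ∩ (DX ch).U1, fN x = (fZ x)⁻¹ ∧ fZ x ≠ 0 := by
      intro x hx
      have h1 := hmul x hx
      have h2 : fZ x ≠ 0 := by
        intro h0
        rw [h0, zero_mul] at h1
        exact zero_ne_one h1
      exact ⟨eq_inv_of_mul_eq_one_right h1, h2⟩
    have hself : ∀ i : Bool, ∀ x ∈ (cov (DX ch) a).U i,
        (hitS (cov (DX ch) a) (q2F (DX ch) a t) (q3F (DX ch) a t)).g i i x = 1 := by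
      intro i x hx
      show diagonal ![(cov (DX ch) a).rat i i x, 1, (cov (DX ch) a).rat i i x] = 1
      rw [hrat1 i x hx]
      ext k l
      fin_cases k <;> fin_cases l <;> simp
    have key01 : ∀ x ∈ (DX ch).U0 ∩ (DX ch).U1, ETD_H L b true x =
        (diagonal ![(cov (DX ch) a).rat false true x, 1, (cov (DX ch) a).rat true false x])ᴴ *
        ETD_H L b false x *
        diagonal ![(cov (DX ch) a).rat false true x, 1, (cov (DX ch) a).rat true false x] := by
      intro x hx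
      obtain ⟨e1, e2⟩ := hnn x hx
      obtain ⟨r1, r2⟩ := hrat x hx
      rw [r1, r2]
      refine ETD_glue (fZ x) (fN x) (hmul x hx) _ _ _ _ ?_ ?_
      · have := hP.gL false (fZ x) e2
        rw [this, e1]
        simp only [Bool.not_false]
        ring
      · have := hP.gb false (fZ x) e2
        rw [this, e1]
        rfl
    have key10 : ∀ x ∈ (DX ch).U0 ∩ (DX ch).U1, ETD_H L b false x =
        (diagonal ![(cov (DX ch) a).rat true false x, 1, (cov (DX ch) a).rat false true x])ᴴ *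
        ETD_H L b true x *
        diagonal ![(cov (DX ch) a).rat true false x, 1, (cov (DX ch) a).rat false true x] := by
      intro x hx
      obtain ⟨e1, e2⟩ := hnn x hx
      obtain ⟨r1, r2⟩ := hrat x hx
      rw [r1, r2]
      refine ETD_glue (fN x) (fZ x) (by rw [mul_comm]; exact hmul x hx) _ _ _ _ ?_ ?_
      · have := hP.gL false (fZ x) e2
        rw [this, e1, norm_inv, Real.log_inv]
        simp only [Bool.not_false]
        ring
      · have h3 : fN x ≠ 0 := by rw [e1]; exact inv_ne_zero e2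
        have := hP.gb true (fN x) h3
        have e3 : (fN x)⁻¹ = fZ x := by rw [e1, inv_inv]
        rw [this, e3]
        rfl
    cases i <;> cases j
    · rw [hself false x hx.1]
      simp
    · exact key01 x hx
    · exact key10 x ⟨hx.2, hx.1⟩
    · rw [hself true x hx.1]
      simp
  · -- local equation
    intro i e he
    cases i
    · have h1 := (hETC cs ch hgood hhol 3 (a ^ 2)
        (fun z => A3 ((DA a t).p false z) ((DA a t).r false z))
        (fun z => H3 (L false z) (b false z)) (hNs false) (hro false) e he).1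
      refine ETD_congr h1 ?_ ?_
      · intro z hz
        have hx : e.symm z ∈ (DX ch).U0 := hz.2
        obtain ⟨s1, s2⟩ := hq0 _ hx
        obtain ⟨q1, q2⟩ := hq23 false _ hx
        show !![0, quo (q2F (DX ch) a t) ((cov (DX ch) a).η false) 2 (e.symm z) / 2,
          quo (q3F (DX ch) a t) ((cov (DX ch) a).η false) 3 (e.symm z); 1, 0,
          quo (q2F (DX ch) a t) ((cov (DX ch) a).η false) 2 (e.symm z) / 2; 0, 1, 0] = _
        rw [q1, q2, s1, s2]
        rfl
      · intro z _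
        show ‖(a : ℂ) * eta0 e (e.symm z)‖ ^ 2 = a ^ 2 * ‖eta0 e (e.symm z)‖ ^ 2
        rw [norm_mul, mul_pow, norm_real, Real.norm_eq_abs, sq_abs]
    · have h1 := (hETC cs ch hgood hhol 3 (a ^ 2)
        (fun z => A3 ((DA a t).p true z) ((DA a t).r true z))
        (fun z => H3 (L true z) (b true z)) (hNs true) (hro true) e he).2
      refine ETD_congr h1 ?_ ?_
      · intro z hz
        have hx : e.symm z ∈ (DX ch).U1 := hz.2
        obtain ⟨s1, s2⟩ := hq1 _ hx
        obtain ⟨q1, q2⟩ := hq23 true _ hx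
        show !![0, quo (q2F (DX ch) a t) ((cov (DX ch) a).η true) 2 (e.symm z) / 2,
          quo (q3F (DX ch) a t) ((cov (DX ch) a).η true) 3 (e.symm z); 1, 0,
          quo (q2F (DX ch) a t) ((cov (DX ch) a).η true) 2 (e.symm z) / 2; 0, 1, 0] = _
        rw [q1, q2, s1, s2]
        rfl
      · intro z _
        show ‖(a : ℂ) * eta1 e (e.symm z)‖ ^ 2 = a ^ 2 * ‖eta1 e (e.symm z)‖ ^ 2
        rw [norm_mul, mul_pow, norm_real, Real.norm_eq_abs, sq_abs]
  · intro i x _
    cases i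
    · exact (hENA 0 0 (L false (fZ x)) (b false (fZ x))).2.1
    · exact (hENA 0 0 (L true (fN x)) (b true (fN x))).2.1

end

end Pool.Agent.DL
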