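import Pool.Agent.helper22.DL.SpecE3

namespace Pool.Agent.DL

open Matrix Complex MeasureTheory Set Filter Topology
open scoped ComplexOrder Manifold ContDiff ComplexConjugate

noncomputable section

theorem ETV_sA (a t : ℝ) (j : Bool) (z : ℂ) (hz : z ≠ 0) : sA a t j z = z ^ 2 * sA a t (!j) z⁻¹ := by
  cases j
  · simp only [sA, ss, Bool.not_false, cond_true, cond_false]
    field_simp
  · simp only [sA, ss, Bool.not_true, cond_true, cond_false]
    field_simp

theorem ETV_qA (a t : ℝ) (j : Bool) (z : ℂ) (hz : z ≠ 0) : qA a t j z = z ^ 4 * qA a t (!j) z⁻¹ := by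
  cases j
  · simp only [qA, qq, Bool.not_false, cond_true, cond_false]
    field_simp
    try ring
  · simp only [qA, qq, Bool.not_true, cond_true, cond_false]
    field_simp
    try ring

theorem ETV_dsA (a t : ℝ) (j : Bool) : Differentiable ℂ (sA a t j) := by
  cases j
  · show Differentiable ℂ (fun z => ss t (a * z))
    unfold ss
    fun_prop
  · show Differentiable ℂ (fun z => I * t * a / 3 * z)
    fun_prop

theorem ETV_dqA (a t : ℝ) (j : Bool) : Differentiable ℂ (qA a t j) := by
  cases j
  · show Differentiable ℂ (fun z => qq t (a * z))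
    unfold qq
    fun_prop
  · show Differentiable ℂ (fun z => (t : ℂ) ^ 2 * (z ^ 4 - (a : ℂ) ^ 2 * z ^ 2))
    fun_prop

theorem ETV : ETV_stmt := by
  intro a t ha
  have hs := ETV_dsA a t
  have hq := ETV_dqA a t
  constructor
  · refine ⟨?_, ?_, ?_, ?_, ?_, ?_, ?_, ?_, ?_⟩
    · show (4 : ℝ) ≤ a ^ 2
      nlinarith
    · intro j
      show Differentiable ℂ (fun z => (3 * sA a t j z ^ 2 + qA a t j z) / 2)
      exact (((hs j).pow 2).const_mul 3 |>.add (hq j)).div_const 2
    · intro j
      show Differentiable ℂ (fun z => -2 * sA a t j z * (sA a t j z ^ 2 - qA a t j z))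
      exact ((hs j).const_mul (-2)).mul (((hs j).pow 2).sub (hq j))
    · intro j z hz
      show (3 * sA a t j z ^ 2 + qA a t j z) / 2 =
        z ^ 4 * ((3 * sA a t (!j) z⁻¹ ^ 2 + qA a t (!j) z⁻¹) / 2)
      rw [ETV_sA a t j z hz, ETV_qA a t j z hz]
      ring
    · intro j z hz
      show -2 * sA a t j z * (sA a t j z ^ 2 - qA a t j z) =
        z ^ 6 * (-2 * sA a t (!j) z⁻¹ * (sA a t (!j) z⁻¹ ^ 2 - qA a t (!j) z⁻¹))
      rw [ETV_sA a t j z hz, ETV_qA a t j z hz]
      ring
    · intro j
      exact continuous_const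
    · intro j z hz
      show (0 : ℝ) = ‖z‖ ^ 4 * 0
      ring
    · intro j
      exact contDiffOn_const
    · intro j d hd
      exact contDiffOn_const
  · refine ⟨?_, ?_, ?_, ?_, ?_, ?_, ?_, ?_, ?_⟩
    · show (4 : ℝ) ≤ a ^ 2
      nlinarith
    · intro j
      show Differentiable ℂ (fun z => 2 * qA a t j z)
      exact (hq j).const_mul 2
    · intro j
      exact differentiable_const _
    · intro j z hz
      show 2 * qA a t j z = z ^ 4 * (2 * qA a t (!j) z⁻¹)
      rw [ETV_qA a t j z hz]
      ring
    · intro j z hz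
      show (0 : ℂ) = z ^ 6 * 0
      ring
    · intro j
      exact continuous_const
    · intro j z hz
      show (0 : ℝ) = ‖z‖ ^ 4 * 0
      ring
    · intro j
      exact contDiffOn_const
    · intro j d hd
      exact contDiffOn_const

end

end Pool.Agent.DL
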